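import Pool.Agent.MP_ed9623_an.H77.SpecZ

/-! The classical equations in the zone. -/

open MeasureTheory Filter Topology Set
open scoped ContDiff

namespace Pool.Agent.MP_ed9623_an.H77

open H64

namespace Class

/-- The spatial directions in space-time. -/
def sE (i : Fin 2) : ST := (0, ee i)

theorem sE0 : sE 0 = e1 := rfl

theorem sE1 : sE 1 = e2 := rfl

theorem cd_sl {F : ST → ℝ} {n : ℕ} (hF : ContDiff ℝ n F) (t : ℝ) :
    ContDiff ℝ n fun p : P => F (t, p) := hF.comp (contDiff_const.prodMk contDiff_id)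

theorem pd_sl {F : ST → ℝ} (hF : ContDiff ℝ (1 : ℕ) F) (t : ℝ) (i : Fin 2) (p : P) :
    pd (ee i) (fun p : P => F (t, p)) p = pd (sE i) F (t, p) := by
  refine HD.pd_eq ?_ (cdg_diff (cd_sl hF t) le_rfl p)
  have h := HD.of_diff (e := sE i) (cdg_diff hF le_rfl ((t, p) : ST))
  unfold HD at h ⊢
  have e : ∀ s : ℝ, ((t, p) : ST) + s • sE i = (t, p + s • ee i) := fun s => by
    simp [sE]
  simpa only [e] using h

/-- Integration by parts on a time slice. -/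
theorem ibp {N : Set P} {F : ST → ℝ} (hF : ContDiff ℝ (1 : ℕ) F) (t : ℝ) (i : Fin 2)
    {θ : P → ℝ} (hθ : Test N θ) :
    ∫ x, F (t, x) * pd (ee i) θ x = -∫ x, pd (sE i) F (t, x) * θ x := by
  have h := WD.of_cd (cd_sl hF t) N (ee i) θ hθ
  simpa only [pd_sl hF] using h

theorem int_sl {N : Set P} {F : ST → ℝ} (hF : Continuous F) (t : ℝ) {θ : P → ℝ}
    (hθ : Test N θ) : Integrable fun x : P => F (t, x) * θ x :=
  ((hF.comp (continuous_const.prodMk continuous_id)).mul hθ.ct).integrable_of_hasCompactSupport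
    hθ.2.1.mul_left

theorem ct_pd {F : ST → ℝ} (hF : ContDiff ℝ (1 : ℕ) F) (e : ST) : Continuous (pd e F) :=
  (contDiff_pd (n := 0) e hF).continuous

theorem cd_vo {W : Fin 2 → ST → ℝ} (h : ∀ j, ContDiff ℝ (3 : ℕ) (W j)) :
    ContDiff ℝ (2 : ℕ) (vo W) := (contDiff_pd e1 (h 1)).sub (contDiff_pd e2 (h 0))

theorem cd_cv {W : Fin 2 → ST → ℝ} (h : ∀ j, ContDiff ℝ (3 : ℕ) (W j)) :
    ContDiff ℝ (1 : ℕ) (cv W) :=
  ((cdg_le (h 0) (by norm_num)).mul (contDiff_pd e1 (cd_vo h))).add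
    ((cdg_le (h 1) (by norm_num)).mul (contDiff_pd e2 (cd_vo h)))

/-- The convective term. -/
noncomputable def cc (W : Fin 2 → ST → ℝ) (j : Fin 2) : ST → ℝ :=
  fun y => W 0 y * pd e1 (W j) y + W 1 y * pd e2 (W j) y

theorem cd_cc {W : Fin 2 → ST → ℝ} (h : ∀ j, ContDiff ℝ (2 : ℕ) (W j)) (j : Fin 2) :
    ContDiff ℝ (1 : ℕ) (cc W j) :=
  ((cdg_le (h 0) (by norm_num)).mul (contDiff_pd e1 (h j))).add
    ((cdg_le (h 1) (by norm_num)).mul (contDiff_pd e2 (h j)))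

theorem pd_cc {W : Fin 2 → ST → ℝ} (h : ∀ j, ContDiff ℝ (2 : ℕ) (W j)) (j : Fin 2) (e y : ST) :
    pd e (cc W j) y = pd e (W 0) y * pd e1 (W j) y + W 0 y * pd e (pd e1 (W j)) y
      + (pd e (W 1) y * pd e2 (W j) y + W 1 y * pd e (pd e2 (W j)) y) := by
  have d : ∀ k, DifferentiableAt ℝ (W k) y := fun k => cdg_diff (h k) (by norm_num) y
  have d' : ∀ e', DifferentiableAt ℝ (pd e' (W j)) y := fun e' =>
    cdg_diff (contDiff_pd e' (h j)) le_rfl y
  unfold cc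
  rw [pd_add e ((d 0).fun_mul (d' e1)) ((d 1).fun_mul (d' e2)), pd_mul e (d 0) (d' e1),
    pd_mul e (d 1) (d' e2)]

theorem curl_cc {W : Fin 2 → ST → ℝ} (h : ∀ j, ContDiff ℝ (2 : ℕ) (W j)) {y : ST}
    (hd : pd e1 (W 0) y + pd e2 (W 1) y = 0) :
    pd e1 (cc W 1) y - pd e2 (cc W 0) y = cv W y := by
  have d' : ∀ e' k, DifferentiableAt ℝ (pd e' (W k)) y := fun e' k =>
    cdg_diff (contDiff_pd e' (h k)) le_rfl y
  have v : ∀ e, pd e (vo W) y = pd e (pd e1 (W 1)) y - pd e (pd e2 (W 0)) y := fun e =>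
    pd_sub e (d' e1 1) (d' e2 0)
  unfold cv
  rw [pd_cc h, pd_cc h, v, v, pd_comm e1 e2 (h 1).contDiffAt, pd_comm e1 e2 (h 0).contDiffAt]
  linear_combination (pd e1 (W 1) y - pd e2 (W 0) y) * hd

/-- The trilinear form tested with a stream function. -/
theorem tl_eq {N : Set P} {W : Fin 2 → ST → ℝ} {v : Fin 2 → P → ℝ} {t : ℝ}
    (h : ∀ j, ContDiff ℝ (3 : ℕ) (W j)) (hv : ∀ j, ∀ᵐ x, x ∈ N → W j (t, x) = v j x)
    (hd : ∀ x ∈ N, pd e1 (W 0) (t, x) + pd e2 (W 1) (t, x) = 0) {θ : P → ℝ} (hθ : Test N θ) :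
    tl (fun _ => 0) v v (perp (fun _ => 0) θ) = ∫ x, cv W (t, x) * θ x := by
  have h2 : ∀ j, ContDiff ℝ (2 : ℕ) (W j) := fun j => cdg_le (h j) (by norm_num)
  have h1 : ∀ j, ContDiff ℝ (1 : ℕ) (W j) := fun j => cdg_le (h j) (by norm_num)
  have s1 : ∀ (ζ : P → ℝ), Test N ζ → ∀ j i, ∫ x, v i x * v j x * dd (fun _ => 0) i ζ x
      = -∫ x, pd (sE i) (fun y => W i y * W j y) (t, x) * ζ x := fun ζ hζ j i => by
    rw [dd_zero, ← ibp ((h1 i).mul (h1 j)) t i hζ]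
    refine int_test_congr (O := N) (fun x hx => (hζ.pd _).off hx) ?_
    filter_upwards [hv i, hv j] with x a b hx
    rw [a hx, b hx]
  have s2 : ∀ (ζ : P → ℝ), Test N ζ → ∀ j, ∑ i, ∫ x, v i x * v j x * dd (fun _ => 0) i ζ x
      = -∫ x, cc W j (t, x) * ζ x := fun ζ hζ j => by
    rw [Fin.sum_univ_two, s1 ζ hζ, s1 ζ hζ, ← neg_add,
      ← integral_add (int_sl (ct_pd ((h1 0).mul (h1 j)) _) t hζ)
        (int_sl (ct_pd ((h1 1).mul (h1 j)) _) t hζ)]
    simp only [← add_mul]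
    congr 1
    refine int_test_congr (O := N) (fun x hx => hζ.off hx) (Eventually.of_forall fun x hx => ?_)
    have d : ∀ k, DifferentiableAt ℝ (W k) (t, x) := fun k => cdg_diff (h1 k) le_rfl _
    rw [pd_mul _ (d 0) (d j), pd_mul _ (d 1) (d j), sE0, sE1]
    unfold cc
    linear_combination W j (t, x) * hd x hx
  unfold tl
  rw [Fin.sum_univ_two, s2 _ (hθ.perp Gam.zero 0), s2 _ (hθ.perp Gam.zero 1)]
  have p0 : perp (fun _ => 0) θ 0 = fun p => -pd (ee 1) θ p := rfl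
  have p1 : perp (fun _ => 0) θ 1 = pd (ee 0) θ := dd_zero 0 θ
  rw [p0, p1]
  simp only [mul_neg, integral_neg]
  rw [ibp (cd_cc h2 0) t 1 hθ, ibp (cd_cc h2 1) t 0 hθ, neg_neg, neg_neg, neg_add_eq_sub,
    ← integral_sub (int_sl (ct_pd (cd_cc h2 1) _) t hθ) (int_sl (ct_pd (cd_cc h2 0) _) t hθ)]
  simp only [← sub_mul]
  exact int_test_congr (O := N) (fun x hx => hθ.off hx)
    (Eventually.of_forall fun x hx => curl_cc h2 (hd x hx))

end Class

open _root_.Pool.Agent.MP_ed9623_an.H77.Class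

theorem rowClass : OfClass := by
  intro hC ρ x t₀ ε w W g hρ hw hv hR hH hT
  set N : Set P := {x | ρ x < 0} ∩ Metric.ball x ε with hN
  have hNo : IsOpen N := (isOpen_lt hρ continuous_const).inter Metric.isOpen_ball
  obtain ⟨c1, c2, c3⟩ := hC N hNo
  have h3 : ∀ j, ContDiff ℝ (3 : ℕ) (W j) := fun j => cdg_le (hR.c6 j) (by norm_num)
  have h2 : ∀ j, ContDiff ℝ (2 : ℕ) (W j) := fun j => cdg_le (hR.c6 j) (by norm_num)
  have h1 : ∀ j, ContDiff ℝ (1 : ℕ) (W j) := fun j => cdg_le (hR.c6 j) (by norm_num)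
  have cs : ∀ t : ℝ, Continuous fun p : P => ((t, p) : ST) := fun t =>
    continuous_const.prodMk continuous_id
  have sA : ∀ t ∈ Metric.ball t₀ ε, ∀ j i, ∀ᵐ p, p ∈ N →
      pd (sE i) (W j) (t, p) = gj (w t) j i p := fun t ht j i => by
    have a := c2 (fun p => W j (t, p)) (vl (w t) j) (gj (w t) j i) (ee i) (cd_sl (h1 j) t)
      (m2_gj _ _ _) (hR.ae j t ht)
      (((H1O.zero_iff.1 ((mem_VZ.1 (hv t)).1.h1 j)).2 i).2.mono (subset_univ _))
    simpa only [pd_sl (h1 j)] using a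
  have sB : ∀ t ∈ Metric.ball t₀ ε, ∀ j, ∀ᵐ p, p ∈ N →
      pd e0 (W j) (t, p) = vl (deriv w t) j p := fun t ht j => by
    have a := c3 (W j) (cp w (j, none)) t (h1 j) (sm_cp hw _)
      (Filter.Eventually.mono (Metric.isOpen_ball.mem_nhds ht) fun s hs => hR.ae j s hs)
    rw [deriv_cp hw] at a
    exact a
  have sC : ∀ t ∈ Metric.ball t₀ ε, ∀ j, ∀ p ∈ N, Lh (W j) (t, p) = 0 := fun t ht j => by
    refine c1 (fun p => Lh (W j) (t, p)) ((ct_Lh (h2 j)).comp (cs t)) fun θ hθ => ?_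
    have a := hH t ht j θ hθ
    have b : ∀ i, ∫ x, gj (w t) j i x * pd (ee i) θ x
        = -∫ x, pd (sE i) (pd (sE i) (W j)) (t, x) * θ x := fun i => by
      rw [← ibp (contDiff_pd (sE i) (h2 j)) t i hθ]
      exact (int_test_congr (O := N) (fun x hx => (hθ.pd _).off hx) (sA t ht j i)).symm
    have c : ∫ x, vl (deriv w t) j x * θ x = ∫ x, pd e0 (W j) (t, x) * θ x :=
      (int_test_congr (O := N) (fun x hx => hθ.off hx) (sB t ht j)).symm
    rw [Fin.sum_univ_two, b, b, c, sE0, sE1] at a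
    have i1 := int_sl (ct_pd (contDiff_pd e1 (h2 j)) e1) t hθ
    have i2 := int_sl (ct_pd (contDiff_pd e2 (h2 j)) e2) t hθ
    have i0 := int_sl (ct_pd (h1 j) e0) t hθ
    simp only [Lh, sub_mul, add_mul]
    have i3 : Integrable fun x : P => pd e1 (pd e1 (W j)) (t, x) * θ x
        + pd e2 (pd e2 (W j)) (t, x) * θ x := i1.add i2
    rw [integral_sub i3 i0, integral_add i1 i2]
    linarith
  have sD : ∀ t ∈ Metric.ball t₀ ε, ∀ p ∈ N,
      pd e1 (W 0) (t, p) + pd e2 (W 1) (t, p) = 0 := fun t ht => by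
    refine c1 (fun p => pd e1 (W 0) (t, p) + pd e2 (W 1) (t, p))
      (((ct_pd (h1 0) e1).add (ct_pd (h1 1) e2)).comp (cs t)) fun θ hθ => ?_
    have a : ∀ᵐ p, p ∈ N → pd e1 (W 0) (t, p) + pd e2 (W 1) (t, p) = (fun _ => (0 : ℝ)) p := by
      filter_upwards [sA t ht 0 0, sA t ht 1 1, (mem_VZ.1 (hv t)).1.dv] with p a b c hp
      rw [← sE0, ← sE1, a hp, b hp, c]
    rw [int_test_congr (O := N) (fun x hx => hθ.off hx) a]
    simp
  have sT : ∀ t ∈ Metric.ball t₀ ε, ∀ θ, Test N θ →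
      -ip g (perp (fun _ => 0) θ) = ∫ x, cv W (t, x) * θ x := fun t ht θ hθ => by
    rw [← hT t ht θ hθ]
    exact tl_eq h3 (fun j => hR.ae j t ht) (sD t ht) hθ
  have hc := cd_cv h3
  have sF : ∀ t ∈ Metric.ball t₀ ε, ∀ s ∈ Metric.ball t₀ ε, ∀ p ∈ N,
      cv W (s, p) - cv W (t, p) = 0 := fun t ht s hs => by
    refine c1 (fun p => cv W (s, p) - cv W (t, p))
      ((hc.continuous.comp (cs s)).sub (hc.continuous.comp (cs t))) fun θ hθ => ?_
    simp only [sub_mul]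
    rw [integral_sub (int_sl hc.continuous s hθ) (int_sl hc.continuous t hθ), ← sT s hs θ hθ,
      ← sT t ht θ hθ, sub_self]
  refine ⟨⟨hR.c6, hR.bd, hR.sm, fun y a b c => ?_⟩, sT⟩
  obtain ⟨t, p⟩ := y
  have hp : p ∈ N := ⟨c, b⟩
  refine ⟨sC t a 0 p hp, sC t a 1 p hp, sD t a p hp, ?_⟩
  refine HD.pd_eq ?_ (cdg_diff hc le_rfl _)
  unfold HD
  have e : ∀ s : ℝ, ((t, p) : ST) + s • e0 = (t + s, p) := fun s => by
    obtain ⟨p1, p2⟩ := p
    simp
  simp only [e]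
  refine (hasDerivAt_const (0 : ℝ) (cv W (t, p))).congr_of_eventuallyEq ?_
  have ct : Continuous fun s : ℝ => t + s := continuous_const.add continuous_id
  have m : ∀ᶠ s in 𝓝 (0 : ℝ), t + s ∈ Metric.ball t₀ ε :=
    ct.continuousAt.eventually (Metric.isOpen_ball.mem_nhds (by simpa using a))
  filter_upwards [m] with s hs
  exact sub_eq_zero.1 (sF t a _ hs p hp)

end Pool.Agent.MP_ed9623_an.H77
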