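import Pool.Agent.MP_ed9623_an.H77.SpecW

/-! Bounded difference quotients give a weak derivative. -/

open MeasureTheory Filter Topology Set
open scoped ContDiff

namespace Pool.Agent.MP_ed9623_an.H77

open H64

namespace Dqd

theorem line {φ : P → ℝ} (hφ : ContDiff ℝ ∞ φ) (p : P) (t : ℝ) :
    HasDerivAt (fun t : ℝ => φ (p.1 + t, p.2)) (pd (ee 0) φ (p.1 + t, p.2)) t := by
  have h1 : HasDerivAt (fun t : ℝ => ((p.1 + t, p.2) : P)) (ee 0) t :=
    ((hasDerivAt_id t).const_add p.1).prodMk (hasDerivAt_const t p.2)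
  exact (sm_diff hφ _).hasFDerivAt.comp_hasDerivAt t h1

theorem der {f φ : P → ℝ} (hf : M2 f) (hφ : Test univ φ) :
    HasDerivAt (fun t : ℝ => ∫ p, f p * sh t φ p) (∫ p, f p * pd (ee 0) φ p) 0 := by
  obtain ⟨B, -, hB⟩ := (hφ.pd (ee 0)).bd
  have hK : IsCompact (Metric.cthickening 1 (tsupport φ)) := hφ.2.1.isCompact.cthickening
  have := (hasDerivAt_integral_of_dominated_loc_of_deriv_le (μ := volume)
    (F := fun (t : ℝ) (p : P) => f p * sh t φ p)
    (F' := fun (t : ℝ) (p : P) => f p * sh t (pd (ee 0) φ) p)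
    (bound := (Metric.cthickening 1 (tsupport φ)).indicator fun p => ‖f p‖ * B)
    (Metric.ball_mem_nhds (0 : ℝ) one_pos)
    (Eventually.of_forall fun t => (hf.int_mul (hφ.m2.sh t)).1) (hf.int_mul (hφ.m2.sh 0))
    (hf.int_mul ((hφ.pd _).m2.sh 0)).1 (Eventually.of_forall fun p t ht => ?_)
    (IntegrableOn.integrable_indicator ((hf.loc.integrableOn_isCompact hK).norm.mul_const B)
      hK.measurableSet)
    (Eventually.of_forall fun p t _ => (line hφ.1 p t).const_mul (f p))).2
  · simpa [sh] using this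
  by_cases hp : p ∈ Metric.cthickening 1 (tsupport φ)
  · rw [indicator_of_mem hp, norm_mul]
    exact mul_le_mul_of_nonneg_left (hB _) (norm_nonneg _)
  · have : ((p.1 + t, p.2) : P) ∉ tsupport (pd (ee 0) φ) := fun h =>
      hp (Metric.mem_cthickening_of_dist_le p _ 1 _ (tsupport_pd _ _ h) (by
        simpa [Prod.dist_eq] using (mem_ball_zero_iff.1 ht).le))
    rw [indicator_of_notMem hp, sh, image_eq_zero_of_notMem_tsupport this, mul_zero, norm_zero]

end Dqd

theorem rowDqd : OfDqd := by
  intro hR O χ f C hf hχ h1 hC h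
  obtain ⟨B, -, hB⟩ := hχ.bd
  obtain ⟨g, g1, g2, g3⟩ := hR O (fun φ => -∫ p, f p * pd (ee 0) φ p) C hC
    (fun φ ψ a b => by
      simp only [pd_add _ (sm_diff a.1 _) (sm_diff b.1 _), mul_add]
      rw [integral_add (hf.int_mul (a.pd _).m2) (hf.int_mul (b.pd _).m2), neg_add])
    (fun c φ a => by
      simp only [pd_const_mul _ _ (sm_diff a.1 _), mul_left_comm _ c]
      rw [integral_const_mul, mul_neg])
    (fun φ a => by
      have t1 := (hasDerivAt_iff_tendsto_slope_zero.1 (Dqd.der hf a.top)).abs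
      have t2 : Tendsto (fun t : ℝ => -t) (𝓝[≠] 0) (𝓝[≠] 0) :=
        tendsto_nhdsWithin_of_tendsto_nhds_of_eventually_within _
          (by simpa using (continuous_neg.tendsto (0 : ℝ)).mono_left nhdsWithin_le_nhds)
          (eventually_mem_nhdsWithin.mono fun t ht => by simpa using ht)
      rw [abs_neg]
      refine le_of_tendsto t1 ?_
      filter_upwards [t2.eventually h, self_mem_nhdsWithin] with t b1 b2
      have e1 : (∫ p, f p * sh (0 + t) φ p) - ∫ p, f p * sh 0 φ p =
          ∫ p, χ p * dl (-t) f p * φ p := by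
        rw [← integral_sub (hf.int_mul (a.m2.sh _)) (hf.int_mul (a.m2.sh _))]
        have e2 := int_mul_dl hf a.m2 (-t)
        rw [neg_neg] at e2
        refine Eq.trans (integral_congr_ae (Eventually.of_forall fun p => ?_))
          (e2.trans (integral_congr_ae (Eventually.of_forall fun p => ?_)))
        · simp [sh, dl, mul_sub]
        · by_cases hp : p ∈ O
          · simp only [h1 p hp, one_mul]
          · simp only [a.off hp, mul_zero]
      have e3 := (abs_int_le ((hf.dl (-t)).bmul hχ.ct.aestronglyMeasurable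
        (Eventually.of_forall hB)) a.m2).trans (mul_le_mul_of_nonneg_right b1 (nm_nonneg φ))
      have t0 : 0 < |t| := abs_pos.2 b2
      rw [e1, smul_eq_mul, abs_mul, abs_inv, inv_mul_le_iff₀ t0]
      rw [abs_neg] at e3
      linarith)
  exact ⟨g, g1, g2, fun φ a => by rw [← g3 φ a, neg_neg]⟩

end Pool.Agent.MP_ed9623_an.H77
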